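import Pool.Agent.TH707.SL.Final

/-!
# How many strings of a random oracle have to be changed to destroy superlinear lower bounds?

Relative to almost every oracle `O` there are explicit functions of superlinear circuit size (the
circuits may have gates for the oracle; a gate with `j` inputs has size `j + 1`). An adversary who
knows `O` changes, for all large `n`, at most `g n` of the strings of length at most `n`; the result
is the oracle `A` (`Close g O A`). Let `k ≥ 1`; the question is the case `k = 1`.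

* If for every `ε > 0` there are infinitely many `n` with `g n ≤ 2 ^ (ε n ^ (1 / k))`, then for
  almost every `O`, relative to all these `A`, there is a language in `P` whose circuit size is not
  `O(n ^ k)`.
* Otherwise every oracle `O` can be changed such that, relative to `A`, all languages in `NE` (so all
  languages in `NP`, see `TH707.SL.np_ne`) have circuits of size `O(n ^ k)`.
-/

set_option autoImplicit false

namespace Pool.Agent.Results.MP_22d2c8_lc.ChangedStrings

open Pool.Agent.NPC Pool.Agent.H620R2.Gauge Pool.Agent.TH707.SL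
open Pool.Agent.H622R2.Exp (InNTime Lin)
open Pool.Agent.H622R2.Ckt (Small)
open Pool.Agent.W900.CH (Close)
open Pool.Agent.H628R3.RO (randomOracle)
open MeasureTheory Filter

theorem result (k : ℕ) (hk : 1 ≤ k) (g : ℕ → ℝ) :
    ((∀ ε : ℝ, 0 < ε → ∃ᶠ n : ℕ in atTop, g n ≤ 2 ^ (ε * (n : ℝ) ^ (1 / k : ℝ))) →
      ∀ᵐ O ∂randomOracle, ∀ A : Oracle, Close g O A →
        ∃ L, IsP A L ∧ ∀ c : ℝ, ∃ᶠ n : ℕ in atTop, ¬ Small A L (c * (n : ℝ) ^ k) n) ∧
    ((¬ ∀ ε : ℝ, 0 < ε → ∃ᶠ n : ℕ in atTop, g n ≤ 2 ^ (ε * (n : ℝ) ^ (1 / k : ℝ))) →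
      ∀ O : Oracle, ∃ A : Oracle, Close g O A ∧ ∀ L, (IsNP A L ∨ InNTime Lin A L) →
        ∃ c : ℝ, ∀ᶠ n : ℕ in atTop, Small A L (c * (n : ℝ) ^ k) n) := by
  refine ⟨(changed k hk g).1, fun hg O => ?_⟩
  obtain ⟨A, h1, h2⟩ := (changed k hk g).2 hg O
  exact ⟨A, h1, fun L hL => hL.elim (fun h => h2 L (np_ne h)) (h2 L)⟩

end Pool.Agent.Results.MP_22d2c8_lc.ChangedStrings
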