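import Pool.Agent.TH707.SL.Final

/-!
# The size of the set of the oracles without superlinear lower bounds for explicit functions

Relative to almost every oracle there are explicit functions of superlinear circuit size (the
circuits may have gates for the oracle; a gate with `j` inputs has size `j + 1`). Here the size of
the set of the exceptional oracles is determined on the scale of all gauges: the oracles relative to
which all languages in `NP` have circuits of size `O(n ^ k)` are a null set for the gauge `f` if and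
only if for every `ε > 0` there are infinitely many `N` with `f N ≤ 2 ^ (ε (log N) ^ (1 / k))`. In
the case `k = 1`, that of the question, this means `f N ≤ N ^ ε`. The same holds for `P` and for `NE`
instead of `NP`, and for all sets in between.
-/

set_option autoImplicit false

namespace Pool.Agent.Results.MP_22d2c8_lc.GaugeThreshold

open Pool.Agent.NPC Pool.Agent.H620R2.Gauge Pool.Agent.TH707.SL
open Pool.Agent.H622R2.Exp (InNTime Lin)
open Pool.Agent.H622R2.Ckt (Small)
open Filter

theorem result (k : ℕ) (hk : 1 ≤ k) (f : ℕ → ℝ) :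
    (Null f {A : Oracle | ∀ L, IsNP A L →
        ∃ c : ℝ, ∀ᶠ n : ℕ in atTop, Small A L (c * (n : ℝ) ^ k) n} ↔
      ∀ ε : ℝ, 0 < ε →
        ∃ᶠ N : ℕ in atTop, f N ≤ 2 ^ (ε * (Real.logb 2 N) ^ (1 / k : ℝ))) ∧
    ∀ S : Set Oracle,
      (∀ A : Oracle, (∀ L, InNTime Lin A L →
        ∃ c : ℝ, ∀ᶠ n : ℕ in atTop, Small A L (c * (n : ℝ) ^ k) n) → A ∈ S) →
      (∀ A ∈ S, ∀ L, IsP A L →
        ∃ c : ℝ, ∀ᶠ n : ℕ in atTop, Small A L (c * (n : ℝ) ^ k) n) →
      (Null f S ↔ ∀ ε : ℝ, 0 < ε →
        ∃ᶠ N : ℕ in atTop, f N ≤ 2 ^ (ε * (Real.logb 2 N) ^ (1 / k : ℝ))) := by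
  refine ⟨gauge k hk f _ (fun A hA L hL => hA L (np_ne hL)) fun A hA L hL => hA L ?_,
    fun S h1 h2 => gauge k hk f S h1 h2⟩
  exact p_np hL

end Pool.Agent.Results.MP_22d2c8_lc.GaugeThreshold
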