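import Pool.Agent.TH708.Fat.BoolConv

/-!
# Superlinear lower bounds for circuits with few heavy gates
-/

set_option autoImplicit false

namespace Pool.Agent.Results.MP_22d2c8_lc.HeavyGates

open Pool.Agent.H682R3.Few Pool.Agent.TH708.Fat

/-- Let `conv2 m` be the length-preserving function that multiplies, over the field with two
elements, a vector of `n = m / 3` bits by a Toeplitz matrix given by further input bits. Let `C` be
a Boolean circuit (its gates compute arbitrary functions of any number of predecessors) that
computes the first `n` outputs correctly on at least a fraction `2 ^ (- q)` of all inputs (`good C`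
is the set of these inputs). Call a node `θ`-heavy if the number of the first `n` inputs with a
path to it times the number of the first `n` outputs with a path from it exceeds `θ`. If `s`
exceeds the number of `θ`-heavy nodes plus `q + 1` and `48 s ≤ n`, then
`n² Λ² ≤ 8 (s + Λ) θ (nodes + edges)`, where `Λ = log₂ (n / (48 s))`. -/
theorem result (m : ℕ) (C : BCircuit m) (θ q s : ℕ) (hq : 2 ^ m ≤ 2 ^ q * (good C).card)
    (hs : (heavyB C θ).card + q + 1 < s) (hn : 48 * s ≤ m / 3) :
    ((m / 3 : ℕ) : ℝ) ^ 2 * (Real.logb 2 ((m / 3 : ℕ) / (48 * s))) ^ 2 ≤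
      8 * (s + Real.logb 2 ((m / 3 : ℕ) / (48 * s))) *
        (θ * (Fintype.card C.V + C.G.E.card)) :=
  bool_heavy C θ q s hq hs hn

end Pool.Agent.Results.MP_22d2c8_lc.HeavyGates
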