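import Pool.Agent.TH272.Nec.IsaHeavy

set_option autoImplicit false

/-!
# The exact price of local sharing: superlinear circuits for an explicit function

Indirect storage access `isa` on `N` bits (`q` address bits, `2 ^ q` blocks of `ℓ` bits, a table
with `2 ^ ℓ` cells; the address selects a block, and the block selects the cell that is the value).

A circuit over the full binary basis is written as a sequence of formulas, one for each gate whose
value is used more than once (a shared gate) and one for the output; a leaf of a formula reads a bit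
of the input or refers to an earlier shared gate. Every circuit is of this form. A shared gate is
heavy if it depends on more than `d` bits of the input (directly or by other shared gates).

* For all circuits and all `d`
  `N ^ 2 / (1152 log₂ N) ≤ leaves + d (references + shared gates) +
    (2 N / log₂ N) (references to heavy gates + heavy gates)`.
  This holds also for random circuits with error probability at most `1 / 3` and expected values.
* For all `d ≥ 1` there is a circuit without heavy gates such that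
  `leaves + references + shared gates ≤ 7 N + 22 N ^ 2 / (d log₂ N)`.

So for `1 ≤ d ≤ N / log₂ N` the size of circuits without heavy gates is `Θ (N ^ 2 / (d log N))`: it
is superlinear if and only if `d = o (N / log N)`. In a circuit with
`leaves + references + shared gates ≤ K N` there are at least `N / 4608` heavy gates and references
to them, if `d + 1 ≤ N / (2304 K log₂ N)`.

Proof of the first part: Nechiporuk's method. If all bits outside of a block are fixed then the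
references to the shared gates that do not depend on the block are constants, so there are at most
`2 ^ (1 + s) 16 ^ (r + l)` subfunctions, where `s` is the number of the shared gates that depend on
the block, `r` is the number of references to them and `l` is the number of leaves that read the
block. Second part: the blocks are divided into groups of `2 ^ p`; the shared gates compute the bits
of the block which is selected in a group, and for each group there is a formula which looks for the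
cell of the table.
-/

namespace Pool.Agent.Results.MP_22d2c8_lc.LocalSharing

open Pool.Agent.TH272.Nec Pool.Agent.TH272.Nec.Isa

theorem result (ℓ : ℕ) (hℓ : 7 ≤ ℓ) :
    ∃ q N : ℕ, N = q + 2 ^ q * ℓ + 2 ^ ℓ ∧ 2 ^ ℓ ≤ N ∧ N ≤ 3 * 2 ^ ℓ ∧
      ∀ d : ℕ, 1 ≤ d →
        (∀ (Ω : Type) [Fintype Ω] (μ : Ω → ℝ) (C : Ω → Circuit (Bit q ℓ) (fun _ => Bool)),
          Computes μ C (fun x => isa x = true) →
            (N : ℝ) ^ 2 / (1152 * Nat.log 2 N) ≤ mean μ (fun ω => (C ω).leaves) +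
              d * (mean μ (fun ω => (C ω).refs) + mean μ (fun ω => (C ω).shared)) +
              2 * N / Nat.log 2 N *
                (mean μ (fun ω => (C ω).heavyRefs d) + mean μ (fun ω => (C ω).heavyGates d))) ∧
        ∃ C : Circuit (Bit q ℓ) (fun _ => Bool), C.heavyGates d = 0 ∧ C.heavyRefs d = 0 ∧
          (∀ x, C.eval x = isa x) ∧
          ((C.leaves + C.refs + C.shared : ℕ) : ℝ) ≤ 7 * N + 22 * N ^ 2 / (d * Nat.log 2 N) := by
  obtain ⟨q, hq⟩ : ∃ q, q = Nat.log 2 (2 ^ ℓ / ℓ) := ⟨_, rfl⟩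
  have hpow : ℓ < 2 ^ ℓ := Nat.lt_two_pow_self
  have hne : 2 ^ ℓ / ℓ ≠ 0 := (Nat.div_pos hpow.le (by omega)).ne'
  have h1 : 2 ^ q * ℓ ≤ 2 ^ ℓ := by
    have := Nat.pow_log_le_self 2 hne
    rw [← hq] at this
    exact (Nat.mul_le_mul_right _ this).trans (Nat.div_mul_le_self _ _)
  have h2 : 2 ^ ℓ < 2 * (2 ^ q * ℓ) := by
    have := Nat.lt_pow_succ_log_self (b := 2) (by norm_num) (2 ^ ℓ / ℓ)
    rw [← hq, Nat.div_lt_iff_lt_mul (by omega)] at this
    calc _ < 2 ^ (q + 1) * ℓ := this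
      _ = _ := by ring
  have hqℓ : q ≤ ℓ := by
    by_contra hcon
    have : 2 ^ ℓ < 2 ^ q := Nat.pow_lt_pow_right (by norm_num) (by omega)
    nlinarith
  obtain ⟨N, hN⟩ : ∃ N, N = q + 2 ^ q * ℓ + 2 ^ ℓ := ⟨_, rfl⟩
  have h3 : 2 ^ ℓ ≤ N := by omega
  have h4 : N ≤ 3 * 2 ^ ℓ := by omega
  have h6 : ℓ ≤ Nat.log 2 N := Nat.le_log_of_pow_le (by norm_num) h3
  have h7 : Nat.log 2 N ≤ ℓ + 1 := by
    have : Nat.log 2 N < ℓ + 2 := by
      refine Nat.log_lt_of_lt_pow (by omega) ?_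
      have : 2 ^ (ℓ + 2) = 4 * 2 ^ ℓ := by ring
      omega
    omega
  have h8 : ∀ k : ℕ, 8 * (k + 9) ≤ 2 ^ (k + 7) := by
    intro k
    induction k with
    | zero => norm_num
    | succ k ih =>
      have : 2 ^ (k + 1 + 7) = 2 * 2 ^ (k + 7) := by ring
      omega
  have h9 : 8 * (ℓ + 2) ≤ 2 ^ ℓ := by
    have := h8 (ℓ - 7)
    rwa [show ℓ - 7 + 9 = ℓ + 2 by omega, show ℓ - 7 + 7 = ℓ by omega] at this
  -- real versions
  have r1 : (2 : ℝ) ^ q * ℓ ≤ 2 ^ ℓ := by exact_mod_cast h1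
  have r2 : (2 : ℝ) ^ ℓ ≤ 2 * (2 ^ q * ℓ) := by exact_mod_cast h2.le
  have r3 : (2 : ℝ) ^ ℓ ≤ N := by exact_mod_cast h3
  have r4 : (N : ℝ) ≤ 3 * 2 ^ ℓ := by exact_mod_cast h4
  have r6 : (ℓ : ℝ) ≤ Nat.log 2 N := by exact_mod_cast h6
  have r7 : (Nat.log 2 N : ℝ) ≤ ℓ + 1 := by exact_mod_cast h7
  have r8 : (7 : ℝ) ≤ ℓ := by exact_mod_cast hℓ
  have r9 : (0 : ℝ) < 2 ^ ℓ := by positivity
  have r10 : (0 : ℝ) < 2 ^ q := by positivity
  have r11 : (0 : ℝ) < Nat.log 2 N := by linarith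
  have r12 : 8 * ((ℓ : ℝ) + 2) ≤ 2 ^ ℓ := by exact_mod_cast h9
  have r13 : (2 : ℝ) ^ q * Nat.log 2 N ≤ 8 / 7 * 2 ^ ℓ := by
    calc (2 : ℝ) ^ q * Nat.log 2 N ≤ 2 ^ q * (8 / 7 * ℓ) := by
          refine mul_le_mul_of_nonneg_left ?_ r10.le
          linarith
      _ = 8 / 7 * (2 ^ q * ℓ) := by ring
      _ ≤ _ := by linarith
  refine ⟨q, N, hN, h3, h4, fun d hd => ⟨?_, ?_⟩⟩
  · intro Ω _ μ C hC
    have h := lower_heavy hℓ μ C hC d
    have a1 := Pool.Agent.TH272.Nec.mean_nonneg μ hC.nonneg (fun ω => (C ω).heavyRefs d)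
    have a2 := Pool.Agent.TH272.Nec.mean_nonneg μ hC.nonneg (fun ω => (C ω).heavyGates d)
    have a3 : (2 : ℝ) ^ q ≤ 2 * N / Nat.log 2 N := by
      rw [le_div_iff₀ r11]
      linarith
    have a4 := mul_le_mul_of_nonneg_right a3 (add_nonneg a1 a2)
    refine le_trans ?_ (h.trans (by linarith))
    rw [div_le_div_iff₀ (mul_pos (by norm_num) r11) (by norm_num), pow_add]
    calc (N : ℝ) ^ 2 * 64 ≤ (3 * 2 ^ ℓ) ^ 2 * 64 := by gcongr
      _ = 576 * (2 ^ ℓ * 2 ^ ℓ) := by ring
      _ ≤ 576 * ((2 * (2 ^ q * ℓ)) * 2 ^ ℓ) := by gcongr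
      _ = 2 ^ q * 2 ^ ℓ * (1152 * ℓ) := by ring
      _ ≤ 2 ^ q * 2 ^ ℓ * (1152 * Nat.log 2 N) := by gcongr
  · obtain ⟨p0, hp0⟩ : ∃ p0, p0 = Nat.log 2 ((d + 2) / 3) := ⟨_, rfl⟩
    have hd3 : (d + 2) / 3 ≠ 0 := by omega
    have b1 : 3 * 2 ^ p0 ≤ d + 2 := by
      have := Nat.pow_log_le_self 2 hd3
      rw [← hp0] at this
      omega
    have b2 : d + 2 < 6 * 2 ^ p0 := by
      have := Nat.lt_pow_succ_log_self (b := 2) (by norm_num) ((d + 2) / 3)
      rw [← hp0, Nat.div_lt_iff_lt_mul (by norm_num), pow_succ] at this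
      omega
    obtain ⟨p, hp⟩ : ∃ p, p = min p0 q := ⟨_, rfl⟩
    obtain ⟨r, hr⟩ : ∃ r, q = r + p := ⟨q - p, by omega⟩
    have b3 : 3 * 2 ^ p - 2 ≤ d := by
      have : 2 ^ p ≤ 2 ^ p0 := Nat.pow_le_pow_right (by norm_num) (by omega)
      omega
    subst hr
    obtain ⟨C, c1, c2, c3, c4, c5⟩ := circuit_local p r ℓ
    obtain ⟨c6, c7⟩ := C.heavy_eq_zero d fun j => (c2 j).trans b3
    refine ⟨C, c6, c7, c1, ?_⟩
    have d1 : ((C.leaves + C.refs + C.shared : ℕ) : ℝ) ≤
        3 * 2 ^ ℓ + 25 / 8 * (2 ^ r * 2 ^ ℓ) := by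
      have e1 : ((C.leaves + C.refs + C.shared : ℕ) : ℝ) ≤
          3 * (2 ^ (r + p) * ℓ) + 3 * (2 ^ r * 2 ^ ℓ) + 2 ^ r * (ℓ + 2) := by
        have : C.leaves + C.refs + C.shared ≤
          3 * (2 ^ (r + p) * ℓ) + 3 * (2 ^ r * 2 ^ ℓ) + 2 ^ r * (ℓ + 2) := by
          rw [c3]
          rw [pow_add 2 r ℓ] at c4 c5
          have e2 : ℓ * 2 ^ (r + p) = 2 ^ (r + p) * ℓ := by ring
          have e3 : 2 ^ r * (ℓ + 2) = 2 ^ r * ℓ + 2 * 2 ^ r := by ring
          rw [e2] at c5
          rw [e3]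
          omega
        exact_mod_cast this
      have e4 : (2 : ℝ) ^ r * (ℓ + 2) ≤ 2 ^ r * (2 ^ ℓ / 8) :=
        mul_le_mul_of_nonneg_left (by linarith) (by positivity)
      linarith
    refine d1.trans ?_
    have d2 : (0 : ℝ) ≤ 22 * N ^ 2 / (d * Nat.log 2 N) := by positivity
    by_cases hpq : p = r + p
    · have hr0 : r = 0 := by omega
      subst hr0
      rw [pow_zero, one_mul]
      linarith
    · have b4 : p = p0 := by omega
      have b5 : (d : ℝ) ≤ 6 * 2 ^ p := by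
        have : d ≤ 6 * 2 ^ p := by rw [b4]; omega
        exact_mod_cast this
      have b6 : (0 : ℝ) < d := by exact_mod_cast hd
      have b7 : 25 / 8 * ((2 : ℝ) ^ r * 2 ^ ℓ) ≤ 22 * N ^ 2 / (d * Nat.log 2 N) := by
        rw [le_div_iff₀ (mul_pos b6 r11)]
        calc 25 / 8 * ((2 : ℝ) ^ r * 2 ^ ℓ) * (d * Nat.log 2 N)
            ≤ 25 / 8 * ((2 : ℝ) ^ r * 2 ^ ℓ) * ((6 * 2 ^ p) * Nat.log 2 N) := by gcongr
          _ = 75 / 4 * 2 ^ ℓ * (2 ^ (r + p) * Nat.log 2 N) := by
            rw [pow_add]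
            ring
          _ ≤ 75 / 4 * 2 ^ ℓ * (8 / 7 * 2 ^ ℓ) := by gcongr
          _ = 150 / 7 * (2 ^ ℓ) ^ 2 := by ring
          _ ≤ 22 * (2 ^ ℓ) ^ 2 := by
            have : (0 : ℝ) ≤ (2 ^ ℓ) ^ 2 := by positivity
            linarith
          _ ≤ 22 * (N : ℝ) ^ 2 := by gcongr
      linarith

end Pool.Agent.Results.MP_22d2c8_lc.LocalSharing
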